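import Mathlib

namespace Pool.Agent.Results.MP_f4ff42_al.FNoetherianNotFG

/-- A right congruence on a semigroup. -/
structure RCon (S : Type) [Semigroup S] extends Setoid S where
  mul_right' : ∀ a b s : S, r a b → r (a * s) (b * s)

/-- `ρ` is the right congruence generated by `X`: the smallest one containing `X`. -/
def GeneratedBy {S : Type} [Semigroup S] (ρ : RCon S) (X : Set (S × S)) : Prop :=
  (∀ p ∈ X, ρ.r p.1 p.2) ∧
    ∀ σ : RCon S, (∀ p ∈ X, σ.r p.1 p.2) → ∀ a b : S, ρ.r a b → σ.r a b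

/-- Every right congruence of finite index is finitely generated. -/
def FNoetherian (S : Type) [Semigroup S] : Prop :=
  ∀ ρ : RCon S, Finite (Quotient ρ.toSetoid) → ∃ X : Set (S × S), X.Finite ∧ GeneratedBy ρ X

/-- The subsemigroup `G` is a group. -/
def IsSubgp {S : Type} [Semigroup S] (G : Subsemigroup S) : Prop :=
  ∃ e ∈ G, (∀ x ∈ G, e * x = x ∧ x * e = x) ∧ ∀ x ∈ G, ∃ y ∈ G, x * y = e ∧ y * x = e

/-- Every element lies in a subgroup. -/
def CompletelyRegular (S : Type) [Semigroup S] : Prop :=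
  ∀ x : S, ∃ G : Subsemigroup S, IsSubgp G ∧ x ∈ G

/-- `S` is generated as a semigroup by a finite subset. -/
def FinitelyGenerated (S : Type) [Semigroup S] : Prop :=
  ∃ A : Set S, A.Finite ∧ Subsemigroup.closure A = ⊤

/-! ### A criterion -/

def RCon.inf {S : Type} [Semigroup S] (ρ σ : RCon S) : RCon S where
  r a b := ρ.r a b ∧ σ.r a b
  iseqv := ⟨fun a => ⟨ρ.iseqv.refl a, σ.iseqv.refl a⟩,
    fun h => ⟨ρ.iseqv.symm h.1, σ.iseqv.symm h.2⟩,
    fun h1 h2 => ⟨ρ.iseqv.trans h1.1 h2.1, σ.iseqv.trans h1.2 h2.2⟩⟩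
  mul_right' a b s h := ⟨ρ.mul_right' a b s h.1, σ.mul_right' a b s h.2⟩

theorem criterion {S : Type} [Semigroup S] (ρ : RCon S) (X₀ : Set (S × S)) (hX₀ : X₀.Finite)
    (R : Set S) (hR : R.Finite) (hρ : ∀ p ∈ X₀, ρ.r p.1 p.2)
    (hred : ∀ σ : RCon S, (∀ p ∈ X₀, σ.r p.1 p.2) → ∀ s : S, ∃ r ∈ R, σ.r s r) :
    ∃ X : Set (S × S), X.Finite ∧ GeneratedBy ρ X := by
  refine ⟨X₀ ∪ {p | p ∈ R ×ˢ R ∧ ρ.r p.1 p.2},
    hX₀.union ((hR.prod hR).subset (fun p hp => hp.1)), ?_, ?_⟩
  · rintro p (hp | ⟨-, hp⟩)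
    · exact hρ p hp
    · exact hp
  · intro σ hσ a b hab
    have hτ : ∀ p ∈ X₀, (ρ.inf σ).r p.1 p.2 := fun p hp => ⟨hρ p hp, hσ p (Or.inl hp)⟩
    obtain ⟨r, hr, har⟩ := hred (ρ.inf σ) hτ a
    obtain ⟨r', hr', hbr⟩ := hred (ρ.inf σ) hτ b
    have h1 : ρ.r r r' := ρ.iseqv.trans (ρ.iseqv.symm har.1) (ρ.iseqv.trans hab hbr.1)
    have h2 : σ.r r r' := hσ (r, r') (Or.inr ⟨⟨hr, hr'⟩, h1⟩)
    exact σ.iseqv.trans har.2 (σ.iseqv.trans h2 (σ.iseqv.symm hbr.2))

/-! ### The example -/

abbrev G : Type := ℕ →₀ ℤ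

/-- The sparse function: `f (2 ^ k)` is a unit vector depending on `k`, all other values
are zero. -/
noncomputable def f (j : ℤ) : G :=
  if j = 2 ^ (Nat.log 2 j.toNat) then Finsupp.single (Nat.unpair (Nat.log 2 j.toNat)).1 1 else 0

theorem f_pow (k : ℕ) : f (2 ^ k) = Finsupp.single (Nat.unpair k).1 1 := by
  have h1 : ((2 : ℤ) ^ k).toNat = 2 ^ k := by
    have : ((2 : ℤ) ^ k) = ((2 ^ k : ℕ) : ℤ) := by push_cast; rfl
    rw [this, Int.toNat_natCast]
  have h2 : Nat.log 2 ((2 : ℤ) ^ k).toNat = k := by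
    rw [h1, Nat.log_pow (by norm_num)]
  rw [f, h2, if_pos rfl]

theorem f_nonneg (j : ℤ) (n : ℕ) : 0 ≤ f j n := by
  rw [f]
  split_ifs
  · rw [Finsupp.single_apply]
    split_ifs <;> norm_num
  · simp

theorem f_transition (N : ℕ) (hN : 1 ≤ N) (n : ℕ) :
    ∃ j : ℤ, f (j + N) = Finsupp.single n 1 ∧ f j = 0 := by
  set k := Nat.pair n (N + 1) with hk
  have hk1 : N + 1 ≤ k := Nat.right_le_pair _ _
  have hlt : N < 2 ^ N := Nat.lt_two_pow_self
  refine ⟨2 ^ k - N, ?_, ?_⟩
  · rw [sub_add_cancel, f_pow, hk, Nat.unpair_pair]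
  · rw [f]
    split_ifs with h
    · exfalso
      set l := Nat.log 2 ((2 : ℤ) ^ k - N).toNat with hl
      have h1 : (2 : ℤ) ^ k - 2 ^ l = N := by linarith
      rcases Nat.lt_or_ge l k with hlk | hlk
      · have h2 : (2 : ℤ) ^ l ≤ 2 ^ (k - 1) := pow_le_pow_right₀ (by norm_num) (by omega)
        have h3 : (2 : ℤ) ^ k = 2 ^ (k - 1) + 2 ^ (k - 1) := by
          obtain ⟨k', hk'⟩ : ∃ k', k = k' + 1 := ⟨k - 1, by omega⟩
          rw [hk', Nat.add_sub_cancel, pow_succ]; ring
        have h4 : (2 : ℤ) ^ N ≤ 2 ^ (k - 1) := pow_le_pow_right₀ (by norm_num) (by omega)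
        have h5 : (N : ℤ) < 2 ^ N := by exact_mod_cast hlt
        linarith
      · have h2 : (2 : ℤ) ^ k ≤ 2 ^ l := pow_le_pow_right₀ (by norm_num) hlk
        have h3 : (1 : ℤ) ≤ N := by exact_mod_cast hN
        linarith
    · rfl

inductive T : Type
  | z (k : ℤ) : T
  | x (j : ℤ) (h : G) (m : ℤ) : T

noncomputable def T.mul : T → T → T
  | T.z k, T.z l => T.z (k + l)
  | T.z k, T.x j h m => T.x (k + j) h m
  | T.x j h m, T.z k => T.x j h (m + k)
  | T.x j h m, T.x j' h' m' => T.x j (h + f (m + j') + h') m'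

noncomputable instance : Semigroup T where
  mul := T.mul
  mul_assoc a b c := by
    show T.mul (T.mul a b) c = T.mul a (T.mul b c)
    cases a <;> cases b <;> cases c <;> simp only [T.mul, add_assoc]

theorem mul_def (a b : T) : a * b = T.mul a b := rfl

theorem compReg : CompletelyRegular T := by
  intro a
  cases a with
  | z k =>
    refine ⟨⟨{y | ∃ l, y = T.z l}, ?_⟩, ⟨T.z 0, ⟨0, rfl⟩, ?_, ?_⟩, ⟨k, rfl⟩⟩
    · rintro _ _ ⟨l, rfl⟩ ⟨l', rfl⟩
      exact ⟨l + l', rfl⟩
    · rintro _ ⟨l, rfl⟩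
      exact ⟨congrArg T.z (zero_add l), congrArg T.z (add_zero l)⟩
    · rintro _ ⟨l, rfl⟩
      exact ⟨T.z (-l), ⟨-l, rfl⟩, congrArg T.z (add_neg_cancel l), congrArg T.z (neg_add_cancel l)⟩
  | x j h m =>
    refine ⟨⟨{y | ∃ g, y = T.x j g m}, ?_⟩, ⟨T.x j (-f (m + j)) m, ⟨_, rfl⟩, ?_, ?_⟩, ⟨h, rfl⟩⟩
    · rintro _ _ ⟨l, rfl⟩ ⟨l', rfl⟩
      exact ⟨_, rfl⟩
    · rintro _ ⟨l, rfl⟩
      rw [mul_def, mul_def]
      simp only [T.mul]
      constructor <;> congr 1 <;> abel
    · rintro _ ⟨l, rfl⟩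
      refine ⟨T.x j (-l - f (m + j) - f (m + j)) m, ⟨_, rfl⟩, ?_, ?_⟩ <;>
      · rw [mul_def]
        simp only [T.mul]
        congr 1
        abel

/-- The coordinates used by an element. -/
noncomputable def T.supp : T → Finset ℕ
  | T.z _ => ∅
  | T.x _ h _ => h.support

theorem not_fg : ¬ FinitelyGenerated T := by
  rintro ⟨A, hA, htop⟩
  classical
  obtain ⟨n, hn⟩ := Infinite.exists_notMem_finset (hA.toFinset.biUnion T.supp)
  have key : ∀ a ∈ Subsemigroup.closure A, ∀ j h m, a = T.x j h m → 0 ≤ h n := by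
    intro a ha
    induction ha using Subsemigroup.closure_induction with
    | mem a ha =>
      rintro j h m rfl
      have : n ∉ h.support := by
        intro hmem
        apply hn
        rw [Finset.mem_biUnion]
        exact ⟨T.x j h m, by simpa using ha, hmem⟩
      rw [Finsupp.notMem_support_iff] at this
      rw [this]
    | mul a b _ _ iha ihb =>
      intro j h m hab
      rw [mul_def] at hab
      cases a with
      | z k =>
        cases b with
        | z l => simp [T.mul] at hab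
        | x j' h' m' =>
          simp only [T.mul, T.x.injEq] at hab
          rw [← hab.2.1]
          exact ihb _ _ _ rfl
      | x j1 h1 m1 =>
        cases b with
        | z l =>
          simp only [T.mul, T.x.injEq] at hab
          rw [← hab.2.1]
          exact iha _ _ _ rfl
        | x j' h' m' =>
          simp only [T.mul, T.x.injEq] at hab
          rw [← hab.2.1]
          have e1 := iha _ _ _ rfl
          have e2 := ihb _ _ _ rfl
          have e3 := f_nonneg (m1 + j') n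
          simp only [Finsupp.coe_add, Pi.add_apply]
          omega
  have h1 := key (T.x 0 (-Finsupp.single n 1) 0) (by rw [htop]; trivial) _ _ _ rfl
  simp at h1

/-! ### `f`-noetherianity -/

/-- In a right congruence of finite index a power of `z 1` acts trivially. -/
theorem exists_period (ρ : RCon T) (hρ : Finite (Quotient ρ.toSetoid)) :
    ∃ N : ℕ, 1 ≤ N ∧ ∀ s : T, ρ.r (s * T.z N) s := by
  let F : ℕ → (Quotient ρ.toSetoid → Quotient ρ.toSetoid) := fun k =>
    Quotient.map (fun s => s * T.z k) (fun a b h => ρ.mul_right' a b _ h)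
  obtain ⟨k, l, hkl, h⟩ := Finite.exists_ne_map_eq_of_infinite F
  wlog hlt : k < l generalizing k l
  · exact this l k hkl.symm h.symm (lt_of_le_of_ne (not_lt.mp hlt) hkl.symm)
  refine ⟨l - k, by omega, fun s => ?_⟩
  have h1 := congrFun h (Quotient.mk ρ.toSetoid (s * T.z (-(k : ℤ))))
  have h2 : ρ.r (s * T.z (-(k : ℤ)) * T.z k) (s * T.z (-(k : ℤ)) * T.z l) := Quotient.exact h1
  have e1 : s * T.z (-(k : ℤ)) * T.z k = s := by
    rw [mul_assoc]
    show s * T.z (-(k : ℤ) + k) = s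
    rw [neg_add_cancel]
    cases s with
    | z i => exact congrArg T.z (add_zero i)
    | x j h m => show T.x j h (m + 0) = _; rw [add_zero]
  have e2 : s * T.z (-(k : ℤ)) * T.z l = s * T.z ((l - k : ℕ) : ℤ) := by
    rw [mul_assoc]
    show s * T.z (-(k : ℤ) + l) = _
    congr 2
    omega
  rw [e1, e2] at h2
  exact ρ.iseqv.symm h2

/-- A relation invariant under steps of length `N`. -/
theorem reduce_mod (r : ℤ → ℤ → Prop) (hr : Equivalence r) (N : ℕ) (hN : 1 ≤ N)
    (hstep : ∀ a : ℤ, r (N + a) a) (a : ℤ) : r a (a % N) := by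
  have h1 : ∀ (k : ℕ) (a : ℤ), r (N * k + a) a := by
    intro k
    induction k with
    | zero => intro a; simpa using hr.refl a
    | succ k ih =>
      intro a
      have : (N : ℤ) * ((k + 1 : ℕ) : ℤ) + a = N + (N * k + a) := by push_cast; ring
      rw [this]
      exact hr.trans (hstep _) (ih a)
  have h2 : ∀ (c : ℤ) (a : ℤ), r (N * c + a) a := by
    intro c a
    rcases le_total 0 c with hc | hc
    · obtain ⟨k, rfl⟩ := Int.eq_ofNat_of_zero_le hc
      exact h1 k a
    · obtain ⟨k, hk⟩ := Int.eq_ofNat_of_zero_le (neg_nonneg.mpr hc)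
      have hk' : c = -(k : ℤ) := by omega
      have := h1 k (N * c + a)
      have e : (N : ℤ) * k + (N * c + a) = a := by rw [hk']; ring
      rw [e] at this
      exact hr.symm this
  have h3 := h2 (a / N) (a % N)
  rwa [Int.mul_ediv_add_emod] at h3

/-- Representatives. -/
def reps (N : ℕ) : Set T := (T.z '' Set.Ico (0 : ℤ) N) ∪
  ((fun p : ℤ × ℤ => T.x p.1 0 p.2) '' (Set.Ico (0 : ℤ) N ×ˢ Set.Ico (0 : ℤ) N))

theorem reps_finite (N : ℕ) : (reps N).Finite :=
  ((Set.finite_Ico (0 : ℤ) N).image _).union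
      (((Set.finite_Ico (0 : ℤ) N).prod (Set.finite_Ico (0 : ℤ) N)).image _)

theorem reduction (N : ℕ) (hN : 1 ≤ N) (σ : RCon T) (h1 : σ.r (T.z N) (T.z 0))
    (h2 : ∀ a : ℤ, 0 ≤ a → a < N → σ.r (T.x a 0 N) (T.x a 0 0)) (s : T) :
    ∃ r ∈ reps N, σ.r s r := by
  have hNpos : (0 : ℤ) < N := by exact_mod_cast hN
  have hmod : ∀ a : ℤ, a % N ∈ Set.Ico (0 : ℤ) N := fun a =>
    ⟨Int.emod_nonneg _ hNpos.ne', Int.emod_lt_of_pos _ hNpos⟩
  have hz : ∀ t : T, σ.r (T.z N * t) t := by
    intro t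
    have := σ.mul_right' _ _ t h1
    have e : T.z 0 * t = t := by
      cases t with
      | z i => exact congrArg T.z (zero_add i)
      | x j h m => show T.x (0 + j) h m = _; rw [zero_add]
    rwa [e] at this
  cases s with
  | z k =>
    refine ⟨T.z (k % N), Or.inl ⟨_, hmod k, rfl⟩, ?_⟩
    exact reduce_mod (fun a b => σ.r (T.z a) (T.z b)) ⟨fun a => σ.iseqv.refl _,
      fun h => σ.iseqv.symm h, fun h h' => σ.iseqv.trans h h'⟩ N hN (fun a => hz (T.z a)) k
  | x j h m =>
    refine ⟨T.x (j % N) 0 (m % N), Or.inr ⟨(j % N, m % N), ⟨hmod j, hmod m⟩, rfl⟩, ?_⟩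
    -- first coordinate
    have e1 : σ.r (T.x j h m) (T.x (j % N) h m) :=
      reduce_mod (fun a b => σ.r (T.x a h m) (T.x b h m)) ⟨fun a => σ.iseqv.refl _,
        fun h => σ.iseqv.symm h, fun h h' => σ.iseqv.trans h h'⟩ N hN
        (fun a => hz (T.x a h m)) j
    set a := j % N with ha
    have ha' := h2 a (hmod j).1 (hmod j).2
    -- group coordinate
    have hadd : ∀ (g : G) (i m : ℤ), σ.r (T.x a (f (N + i) + g) m) (T.x a (f i + g) m) := by
      intro g i m
      have := σ.mul_right' _ _ (T.x i g m) ha'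
      rw [mul_def, mul_def] at this
      simpa only [T.mul, zero_add] using this
    have hunit : ∀ (n : ℕ) (g : G) (m : ℤ), σ.r (T.x a (Finsupp.single n 1 + g) m) (T.x a g m) := by
      intro n g m
      obtain ⟨i, hi1, hi2⟩ := f_transition N hN n
      have := hadd g i m
      rwa [add_comm (N : ℤ) i, hi1, hi2, zero_add] at this
    have hsingle : ∀ (n : ℕ) (c : ℤ) (g : G) (m : ℤ),
        σ.r (T.x a (Finsupp.single n c + g) m) (T.x a g m) := by
      intro n c
      induction c using Int.induction_on with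
      | zero => intro g m; rw [Finsupp.single_zero, zero_add]
      | succ i ih =>
        intro g m
        have e : Finsupp.single n ((i : ℤ) + 1) + g =
            Finsupp.single n 1 + (Finsupp.single n (i : ℤ) + g) := by
          rw [Finsupp.single_add]
          abel
        rw [e]
        exact σ.iseqv.trans (hunit n _ m) (ih g m)
      | pred i ih =>
        intro g m
        have e : Finsupp.single n (-(i : ℤ)) + g =
            Finsupp.single n 1 + (Finsupp.single n (-(i : ℤ) - 1) + g) := by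
          rw [Finsupp.single_sub]; abel
        have h3 := hunit n (Finsupp.single n (-(i : ℤ) - 1) + g) m
        rw [← e] at h3
        exact σ.iseqv.trans (σ.iseqv.symm h3) (ih g m)
    have hall : ∀ (g : G) (m : ℤ), σ.r (T.x a g m) (T.x a 0 m) := by
      intro g
      induction g using Finsupp.induction with
      | zero => intro m; exact σ.iseqv.refl _
      | single_add n c g _ _ ih =>
        intro m
        exact σ.iseqv.trans (hsingle n c g m) (ih m)
    -- last coordinate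
    have e3 : σ.r (T.x a 0 m) (T.x a 0 (m % N)) := by
      apply reduce_mod (fun i k => σ.r (T.x a 0 i) (T.x a 0 k)) ⟨fun a => σ.iseqv.refl _,
        fun h => σ.iseqv.symm h, fun h h' => σ.iseqv.trans h h'⟩ N hN
      intro i
      have := σ.mul_right' _ _ (T.z i) ha'
      rw [mul_def, mul_def] at this
      simpa only [T.mul, zero_add] using this
    exact σ.iseqv.trans e1 (σ.iseqv.trans (hall h m) e3)

theorem fnoetherian : FNoetherian T := by
  intro ρ hρ
  obtain ⟨N, hN, hper⟩ := exists_period ρ hρ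
  refine criterion ρ ({(T.z N, T.z 0)} ∪ ((fun a : ℤ => (T.x a 0 N, T.x a 0 0)) ''
    Set.Ico (0 : ℤ) N)) ((Set.finite_singleton _).union ((Set.finite_Ico _ _).image _)) (reps N)
    (reps_finite N) ?_ ?_
  · rintro p (rfl | ⟨a, -, rfl⟩)
    · have := hper (T.z 0)
      have e : T.z 0 * T.z N = T.z N := congrArg T.z (zero_add _)
      rwa [e] at this
    · have := hper (T.x a 0 0)
      have e : T.x a 0 0 * T.z N = T.x a 0 N := by
        show T.x a 0 (0 + N) = _
        rw [zero_add]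
      rwa [e] at this
  · intro σ hσ s
    exact reduction N hN σ (hσ (T.z N, T.z 0) (Or.inl rfl))
      (fun a h0 h1 => hσ (T.x a 0 N, T.x a 0 0) (Or.inr ⟨a, ⟨h0, h1⟩, rfl⟩)) s

theorem result : ∃ (S : Type) (_ : Semigroup S), CompletelyRegular S ∧ FNoetherian S ∧
    ¬ FinitelyGenerated S :=
  ⟨T, inferInstance, compReg, fnoetherian, not_fg⟩

end Pool.Agent.Results.MP_f4ff42_al.FNoetherianNotFG
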